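import Pool.Agent.Run7.h987.RT.Iface

/-!
# Pieces SUM2 and INFSUM of project RT (helper892)
-/

set_option autoImplicit false

open MeasureTheory Set SchwartzMap
open scoped FourierTransform SchwartzMap ContDiff Pointwise Topology ENNReal

noncomputable section

namespace Pool.Agent.Run7.h892.RT

open Pool.Agent.Run7.h987.BL Pool.Agent.Run7.h987.RT

universe u

variable {k : ℕ}

lemma specIn_tsum {g : ℕ → E k → ℂ} {b : ℕ → ℝ} {T : Set (E k)} (hb : Summable b)
    (hg : ∀ i, BC (g i) (b i)) (hS : ∀ i, SpecIn (g i) T) :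
    SpecIn (fun t => ∑' i, g i t) T := by
  intro w hw
  have h1 : ∀ t, (∑' i, g i t) * 𝓕 w t = ∑' i, g i t * 𝓕 w t := fun t => tsum_mul_right.symm
  simp only [h1]
  have h2 := hasSum_integral_of_summable_integral_norm (μ := volume)
    (F := fun i t => g i t * 𝓕 w t) (fun i => (hg i).integrable _) ?_
  · rw [← h2.tsum_eq]
    simp [hS _ w hw]
  · refine Summable.of_nonneg_of_le (fun i => integral_nonneg fun t => norm_nonneg _)
      (fun i => ?_) (hb.mul_right (∫ t, ‖𝓕 w t‖))
    rw [← integral_const_mul]
    refine integral_mono ((hg i).integrable _).norm ((𝓕 w).integrable.norm.const_mul _)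
      fun t => ?_
    simp only [norm_mul]
    exact mul_le_mul_of_nonneg_right ((hg i).bdd t) (norm_nonneg _)

lemma bc_tsum {g : ℕ → E k → ℂ} {b : ℕ → ℝ} (hb : Summable b)
    (hg : ∀ i, BC (g i) (b i)) : BC (fun t => ∑' i, g i t) (∑' i, b i) := by
  constructor
  · exact continuous_tsum (fun i => (hg i).cont) hb fun i t => (hg i).bdd t
  · intro t
    exact tsum_of_norm_bounded hb.hasSum fun i => (hg i).bdd t

theorem t_SUM2 : P_SUM2.{u} := by
  intro k X _ _ S1 S2 B1 B2 F1 F2 hS1 hS2 hdisj h1 h2
  rcases isEmpty_or_nonempty X with hX | ⟨⟨x0⟩⟩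
  · refine ⟨fun x => (hX.false x).elim, ⟨?_, fun x => (hX.false x).elim,
      fun x => (hX.false x).elim, fun q x => (hX.false x).elim⟩, fun x => (hX.false x).elim⟩
    exact continuous_of_const fun x => (hX.false x).elim
  have hB1 : 0 ≤ B1 := (norm_nonneg _).trans (h1.bdd x0 0)
  have hB2 : 0 ≤ B2 := (norm_nonneg _).trans (h2.bdd x0 0)
  set c : ℝ := (B1 + B2 + 1)⁻¹ with hc
  have hc0 : 0 < c := by positivity
  refine ⟨fun x => (c : ℂ) • (F1 x + F2 x), ⟨?_, ?_, ?_, ?_⟩, ?_⟩
  · have h3 : Continuous fun f : C(E k, ℂ) => (c : ℂ) • f := continuous_const_smul _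
    exact h3.comp (h1.cont.add h2.cont)
  · intro x t
    simp only [ContinuousMap.smul_apply, ContinuousMap.add_apply, smul_eq_mul, norm_mul,
      Complex.norm_real, Real.norm_of_nonneg hc0.le]
    have h3 : ‖F1 x t + F2 x t‖ ≤ B1 + B2 :=
      (norm_add_le _ _).trans (add_le_add (h1.bdd x t) (h2.bdd x t))
    calc c * ‖F1 x t + F2 x t‖ ≤ c * (B1 + B2 + 1) := by
          apply mul_le_mul_of_nonneg_left _ hc0.le
          linarith
      _ = 1 := by rw [hc]; field_simp
  · intro x w hw
    have e1 := h1.spec x w (hw.mono_right subset_union_left)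
    have e2 := h2.spec x w (hw.mono_right subset_union_right)
    have b1 : BC (F1 x) B1 := ⟨(F1 x).continuous, h1.bdd x⟩
    have b2 : BC (F2 x) B2 := ⟨(F2 x).continuous, h2.bdd x⟩
    have : ∀ t, ((c : ℂ) • (F1 x + F2 x)) t * 𝓕 w t =
        (c : ℂ) * (F1 x t * 𝓕 w t + F2 x t * 𝓕 w t) := by
      intro t
      simp only [ContinuousMap.smul_apply, ContinuousMap.add_apply, smul_eq_mul]
      ring
    simp only [this]
    rw [integral_const_mul, integral_add (b1.integrable _) (b2.integrable _), e1, e2]
    simp
  · intro q x t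
    simp only [ContinuousMap.smul_apply, ContinuousMap.add_apply, h1.equi, h2.equi]
  · intro x y hxy
    have hcC : (c : ℂ) ≠ 0 := by exact_mod_cast hc0.ne'
    have h3 : ∀ t, F1 x t + F2 x t = F1 y t + F2 y t := by
      intro t
      have := congrArg (fun f : C(E k, ℂ) => f t) hxy
      simp only [ContinuousMap.smul_apply, ContinuousMap.add_apply, smul_eq_mul] at this
      exact mul_left_cancel₀ hcC this
    have b1 : ∀ x, BC (F1 x) B1 := fun x => ⟨(F1 x).continuous, h1.bdd x⟩
    have b2 : ∀ x, BC (F2 x) B2 := fun x => ⟨(F2 x).continuous, h2.bdd x⟩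
    have key := eq_zero_of_sum (ι := Bool) (D := fun b => cond b S1 S2)
      (g := fun b t => cond b (F1 x t - F1 y t) (F2 x t - F2 y t))
      (C := fun b => cond b (B1 + B1) (B2 + B2)) ?_ ?_ ?_ ?_ ?_
    · constructor
      · ext t
        exact sub_eq_zero.mp (key true t)
      · ext t
        exact sub_eq_zero.mp (key false t)
    · rintro (_ | _)
      · exact ⟨(b2 x).cont.sub (b2 y).cont, fun t => (norm_sub_le _ _).trans
          (add_le_add ((b2 x).bdd t) ((b2 y).bdd t))⟩
      · exact ⟨(b1 x).cont.sub (b1 y).cont, fun t => (norm_sub_le _ _).trans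
          (add_le_add ((b1 x).bdd t) ((b1 y).bdd t))⟩
    · rintro (_ | _)
      · exact SpecIn.sub (b2 x) (b2 y) (h2.spec x) (h2.spec y)
      · exact SpecIn.sub (b1 x) (b1 y) (h1.spec x) (h1.spec y)
    · rintro (_ | _)
      · exact hS2
      · exact hS1
    · rintro (_ | _) (_ | _) hij
      · exact absurd rfl hij
      · exact hdisj.symm
      · exact hdisj
      · exact absurd rfl hij
    · intro t
      simp only [Fintype.sum_bool, cond_true, cond_false]
      linear_combination h3 t

theorem t_INFSUM : P_INFSUM.{u} := by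
  intro k X _ _ K V S G hK hV hdisj hVK hS hSV hG
  have bG : ∀ j x, BC (G j x) 1 := fun j x => ⟨(G j x).continuous, (hG j).bdd x⟩
  have hb : Summable fun j : ℕ => (1 / 2 : ℝ) ^ j := summable_geometric_two
  have hbs : ∑' j : ℕ, (1 / 2 : ℝ) ^ j = 2 := tsum_geometric_two
  set g : X → ℕ → E k → ℂ := fun x j t => ((1 / 2 : ℝ) ^ j : ℝ) * G j x t with hg
  have gb : ∀ x j, BC (g x j) ((1 / 2 : ℝ) ^ j) := by
    intro x j
    refine ⟨continuous_const.mul (bG j x).cont, fun t => ?_⟩
    simp only [hg, norm_mul, Complex.norm_real]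
    rw [Real.norm_of_nonneg (by positivity)]
    exact mul_le_of_le_one_right (by positivity) ((bG j x).bdd t)
  have gS : ∀ x j, SpecIn (g x j) (S j) := by
    intro x j w hw
    have := (hG j).spec x w hw
    simp only [hg, mul_assoc]
    rw [integral_const_mul, this, mul_zero]
  have hjc : Continuous fun p : X × E k => ∑' j, g p.1 j p.2 := by
    refine continuous_tsum (u := fun j : ℕ => (1 / 2 : ℝ) ^ j) (fun j => ?_) hb
      fun j p => (gb p.1 j).bdd p.2
    exact continuous_const.mul (((hG j).cont.comp continuous_fst).eval continuous_snd)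
  set F : X → C(E k, ℂ) := fun x => ⟨fun t => ∑' j, g x j t, (bc_tsum hb (gb x)).cont⟩ with hF
  refine ⟨F, ⟨?_, ?_, ?_, ?_⟩, ?_⟩
  · exact ContinuousMap.continuous_of_continuous_uncurry _ hjc
  · intro x t
    have := (bc_tsum hb (gb x)).bdd t
    rw [hbs] at this
    exact this
  · intro x
    exact specIn_tsum hb (gb x) fun j => (gS x j).mono ((hSV j).trans (hVK j))
  · intro q x t
    simp only [hF, ContinuousMap.coe_mk, hg, (hG _).equi]
  · intro x y hxy j
    have h0 : ∀ t, ∑' i, (g x i t - g y i t) = 0 := by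
      intro t
      have h1 := congrArg (fun f : C(E k, ℂ) => f t) hxy
      simp only [hF, ContinuousMap.coe_mk] at h1
      have s1 : Summable fun i => g x i t := Summable.of_norm_bounded hb fun i => (gb x i).bdd t
      have s2 : Summable fun i => g y i t := Summable.of_norm_bounded hb fun i => (gb y i).bdd t
      rw [s1.tsum_sub s2, h1, sub_self]
    set e : ℕ → E k → ℂ := fun i t => g x i t - g y i t with he
    have eb : ∀ i, BC (e i) (2 * (1 / 2 : ℝ) ^ i) := by
      intro i
      refine ⟨(gb x i).cont.sub (gb y i).cont, fun t => ?_⟩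
      have h1 := (gb x i).bdd t
      have h2 := (gb y i).bdd t
      exact (norm_sub_le _ _).trans (by linarith)
    have eS : ∀ i, SpecIn (e i) (S i) := fun i => SpecIn.sub (gb x i) (gb y i) (gS x i) (gS y i)
    set e' : ℕ → E k → ℂ := fun i t => if i = j then 0 else e i t with he'
    have eb' : ∀ i, BC (e' i) (2 * (1 / 2 : ℝ) ^ i) := by
      intro i
      by_cases hi : i = j
      · refine ⟨?_, fun t => ?_⟩
        · simp only [he', hi, if_true]
          exact continuous_const
        · simp only [he', hi, if_true, norm_zero]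
          positivity
      · have : e' i = e i := by
          ext t
          simp [he', hi]
        rw [this]
        exact eb i
    set T : Set (E k) := closure (⋃ i ∈ {i : ℕ | i ≠ j}, V i) with hT
    have hTK : T ⊆ K := closure_minimal (iUnion₂_subset fun i _ => hVK i) hK.isClosed
    have hTc : IsCompact T := hK.of_isClosed_subset isClosed_closure hTK
    have hTV : Disjoint (V j) T := by
      refine Disjoint.closure_right ?_ (hV j)
      rw [Set.disjoint_iUnion₂_right]
      intro i hi
      exact hdisj j i (Ne.symm hi)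
    have hb2 : Summable fun i : ℕ => 2 * (1 / 2 : ℝ) ^ i := hb.mul_left 2
    have eS' : SpecIn (fun t => ∑' i, e' i t) T := by
      refine specIn_tsum hb2 eb' fun i => ?_
      by_cases hi : i = j
      · intro w _
        simp [he', hi]
      · have : e' i = e i := by
          ext t
          simp [he', hi]
        rw [this]
        refine (eS i).mono ((hSV i).trans ?_)
        refine (subset_biUnion_of_mem (u := V) (show i ∈ {i : ℕ | i ≠ j} from hi)).trans
          subset_closure
    have key := eq_zero_of_sum (ι := Bool) (D := fun b => cond b (S j) T)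
      (g := fun b t => cond b (e j t) (∑' i, e' i t))
      (C := fun b => cond b (2 * (1 / 2 : ℝ) ^ j) (∑' i : ℕ, 2 * (1 / 2 : ℝ) ^ i))
      ?_ ?_ ?_ ?_ ?_
    · ext t
      have h1 := key true t
      simp only [cond_true, he, hg] at h1
      have h2 : (((1 / 2 : ℝ) ^ j : ℝ) : ℂ) ≠ 0 := by
        have : ((1 / 2 : ℝ) ^ j : ℝ) ≠ 0 := by positivity
        exact_mod_cast this
      exact mul_left_cancel₀ h2 (sub_eq_zero.mp h1)
    · rintro (_ | _)
      · exact bc_tsum hb2 eb'
      · exact eb j
    · rintro (_ | _)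
      · exact eS'
      · exact eS j
    · rintro (_ | _)
      · exact hTc
      · exact hS j
    · rintro (_ | _) (_ | _) hij
      · exact absurd rfl hij
      · exact (hTV.mono_left (hSV j)).symm
      · exact hTV.mono_left (hSV j)
      · exact absurd rfl hij
    · intro t
      simp only [Fintype.sum_bool, cond_true, cond_false]
      have s1 : Summable fun i => e i t := Summable.of_norm_bounded hb2 fun i => (eb i).bdd t
      have := s1.tsum_eq_add_tsum_ite j
      rw [h0 t] at this
      exact this.symm

end Pool.Agent.Run7.h892.RT
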